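import Mathlib

set_option autoImplicit false

/-!
A partition of `E(K_n) x E(K_n)`, `n = 2 M^2`, into at most `3 M^4 + 71 M^3` products of
complete bipartite edge sets.  Vertices are triples `(p, i, j)` with a type `p` in `{0,1}` and a
position `(i, j)` in an `M x M` grid; the sides of the bicliques are described by the type and the
position relative to an anchor (a grid point, a column or a row).
-/

namespace Pool.Agent.Biclique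

/-- relative position of two numbers: `0` less, `1` equal, `2` greater -/
def rl (a b : ℕ) : ℕ := if a < b then 0 else if a = b then 1 else 2

/-- A side description: kind (0 = anchored at a grid point, 1 = at a column, 2 = at a row) and
the two vertex classes as bit masks (bit `9 p + 3 o1 + o2`). -/
structure Sd where
  kind : ℕ
  A : ℕ
  B : ℕ

def bit (M p o1 o2 : ℕ) : Bool := M.testBit (9 * p + 3 * o1 + o2)

/-- indicator that the biclique described by `S` covers the pair -/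
def ind (S : Sd) (p r o1 o1' o2 o2' : ℕ) : ℕ :=
  if ((bit S.A p o1 o2 && bit S.B r o1' o2') || (bit S.B p o1 o2 && bit S.A r o1' o2')) = true
  then 1 else 0

def cnt1 (f : ℕ → ℕ → ℕ) (c : ℕ) : ℕ := if c = 1 then f 1 1 else f 1 (2 - c) + f c 1

/-- number of anchors for which the biclique covers a pair with types `p r` and relative
position `c1, c2` -/
def cnt (S : Sd) (p r c1 c2 : ℕ) : ℕ :=
  if S.kind = 0 then cnt1 (fun o o' => cnt1 (fun b b' => ind S p r o o' b b') c2) c1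
  else if S.kind = 1 then cnt1 (fun o o' => ind S p r o o' 1 1) c1
  else cnt1 (fun b b' => ind S p r 1 1 b b') c2

def data : List (Sd × Sd) := [
  (⟨0, 32290, 16⟩, ⟨0, 2, 16⟩),
  (⟨0, 5339, 8192⟩, ⟨0, 65592, 8192⟩),
  (⟨0, 66576, 4128⟩, ⟨0, 8322, 4128⟩),
  (⟨1, 128, 16⟩, ⟨0, 65536, 8192⟩),
  (⟨2, 32, 16⟩, ⟨0, 32, 16⟩),
  (⟨1, 65536, 16⟩, ⟨0, 128, 16⟩),
  (⟨2, 16384, 16⟩, ⟨0, 256, 8192⟩),
  (⟨2, 16384, 16⟩, ⟨0, 131072, 8192⟩),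
  (⟨2, 16384, 16⟩, ⟨0, 16384, 8192⟩),
  (⟨2, 16384, 16⟩, ⟨0, 2048, 16⟩),
  (⟨2, 16384, 16⟩, ⟨0, 2048, 8192⟩),
  (⟨2, 16384, 16⟩, ⟨0, 128, 8192⟩),
  (⟨2, 32, 8192⟩, ⟨0, 131072, 16⟩),
  (⟨2, 32, 8192⟩, ⟨0, 131072, 8192⟩),
  (⟨2, 32, 8192⟩, ⟨0, 32, 16⟩),
  (⟨2, 32, 8192⟩, ⟨0, 16384, 16⟩),
  (⟨2, 32, 8192⟩, ⟨0, 2048, 16⟩),
  (⟨2, 32, 8192⟩, ⟨0, 2048, 8192⟩),
  (⟨2, 32, 8192⟩, ⟨0, 65536, 16⟩),
  (⟨2, 32, 8192⟩, ⟨0, 128, 8192⟩),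
  (⟨2, 32, 8192⟩, ⟨0, 65536, 8192⟩),
  (⟨2, 32, 8192⟩, ⟨0, 8192, 16⟩),
  (⟨1, 65536, 8192⟩, ⟨0, 128, 16⟩),
  (⟨2, 16384, 8192⟩, ⟨0, 32, 16⟩),
  (⟨2, 8192, 16⟩, ⟨0, 131072, 16⟩),
  (⟨2, 8192, 16⟩, ⟨0, 256, 8192⟩),
  (⟨2, 8192, 16⟩, ⟨0, 2048, 16⟩),
  (⟨2, 8192, 16⟩, ⟨0, 4, 8192⟩),
  (⟨2, 8192, 16⟩, ⟨0, 65536, 16⟩),
  (⟨2, 8192, 16⟩, ⟨0, 128, 8192⟩),
  (⟨0, 256, 16⟩, ⟨1, 128, 16⟩),
  (⟨0, 16384, 8192⟩, ⟨1, 128, 16⟩),
  (⟨0, 4, 16⟩, ⟨1, 128, 16⟩),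
  (⟨0, 131072, 16⟩, ⟨2, 32, 16⟩),
  (⟨0, 16384, 16⟩, ⟨2, 32, 16⟩),
  (⟨0, 2048, 16⟩, ⟨2, 32, 16⟩),
  (⟨0, 128, 16⟩, ⟨2, 32, 16⟩),
  (⟨0, 65536, 16⟩, ⟨2, 32, 16⟩),
  (⟨0, 128, 8192⟩, ⟨2, 32, 16⟩),
  (⟨0, 65536, 8192⟩, ⟨2, 32, 16⟩),
  (⟨0, 8192, 16⟩, ⟨2, 32, 16⟩),
  (⟨0, 131072, 16⟩, ⟨1, 65536, 16⟩),
  (⟨0, 16384, 16⟩, ⟨1, 65536, 16⟩),
  (⟨0, 16384, 8192⟩, ⟨1, 65536, 16⟩),
  (⟨0, 2048, 16⟩, ⟨1, 65536, 16⟩),
  (⟨0, 128, 16⟩, ⟨1, 65536, 16⟩),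
  (⟨0, 65536, 8192⟩, ⟨1, 65536, 16⟩),
  (⟨0, 256, 16⟩, ⟨2, 16384, 16⟩),
  (⟨0, 131072, 8192⟩, ⟨2, 16384, 16⟩),
  (⟨0, 32, 16⟩, ⟨2, 16384, 16⟩),
  (⟨0, 4, 16⟩, ⟨2, 16384, 16⟩),
  (⟨0, 2048, 8192⟩, ⟨2, 16384, 16⟩),
  (⟨0, 16384, 8192⟩, ⟨1, 128, 8192⟩),
  (⟨0, 128, 16⟩, ⟨1, 128, 8192⟩),
  (⟨0, 65536, 8192⟩, ⟨1, 128, 8192⟩),
  (⟨0, 256, 16⟩, ⟨2, 32, 8192⟩),
  (⟨0, 4, 16⟩, ⟨2, 32, 8192⟩),
  (⟨0, 131072, 8192⟩, ⟨1, 65536, 8192⟩),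
  (⟨0, 32, 16⟩, ⟨1, 65536, 8192⟩),
  (⟨0, 2048, 8192⟩, ⟨1, 65536, 8192⟩),
  (⟨0, 256, 16⟩, ⟨2, 16384, 8192⟩),
  (⟨0, 16384, 8192⟩, ⟨2, 16384, 8192⟩),
  (⟨0, 4, 16⟩, ⟨2, 16384, 8192⟩),
  (⟨0, 128, 16⟩, ⟨2, 16384, 8192⟩),
  (⟨0, 65536, 16⟩, ⟨2, 16384, 8192⟩),
  (⟨0, 128, 8192⟩, ⟨2, 16384, 8192⟩),
  (⟨0, 65536, 8192⟩, ⟨2, 16384, 8192⟩),
  (⟨0, 8192, 16⟩, ⟨2, 16384, 8192⟩),
  (⟨0, 128, 16⟩, ⟨1, 8192, 16⟩),
  (⟨0, 256, 16⟩, ⟨2, 8192, 16⟩),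
  (⟨0, 131072, 8192⟩, ⟨2, 8192, 16⟩),
  (⟨0, 32, 16⟩, ⟨2, 8192, 16⟩),
  (⟨0, 4, 16⟩, ⟨2, 8192, 16⟩),
  (⟨0, 2048, 8192⟩, ⟨2, 8192, 16⟩)]

def D (t : Fin 74) : Sd × Sd := data.get (t.cast (by rfl))

/-- the finite check of exact covering -/
def checkCover : Bool :=
  (List.range 2).all fun p => (List.range 2).all fun r => (List.range 3).all fun c1 =>
  (List.range 3).all fun c2 => (p == r && c1 == 1 && c2 == 1) ||
  (List.range 2).all fun p' => (List.range 2).all fun r' => (List.range 3).all fun c1' =>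
  (List.range 3).all fun c2' => (p' == r' && c1' == 1 && c2' == 1) ||
    (data.map fun t => cnt t.1 p r c1 c2 * cnt t.2 p' r' c1' c2').sum == 1

theorem checkCover_true : checkCover = true := by decide +kernel

/-- validity of a side description: a covered pair determines the anchor, and the sides are
disjoint -/
def validSd (S : Sd) : Bool :=
  (List.range 2).all fun p =>
    ((List.range 3).all fun a => (List.range 3).all fun b => !(bit S.A p a b && bit S.B p a b)) &&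
    (List.range 2).all fun r =>
      if S.kind = 0 then
        (List.range 3).all fun a => (List.range 3).all fun a' =>
        (List.range 3).all fun b => (List.range 3).all fun b' =>
          (ind S p r a a' b b' == 0) || ((a == 1 || a' == 1) && (b == 1 || b' == 1))
      else if S.kind = 1 then
        (List.range 3).all fun a => (List.range 3).all fun a' =>
          (ind S p r a a' 1 1 == 0) || (a == 1 || a' == 1)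
      else
        (List.range 3).all fun b => (List.range 3).all fun b' =>
          (ind S p r 1 1 b b' == 0) || (b == 1 || b' == 1)

def checkValid : Bool := data.all fun t => validSd t.1 && validSd t.2

theorem checkValid_true : checkValid = true := by decide +kernel

end Pool.Agent.Biclique
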