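import Mathlib
import Pool.Agent.Lib.MP_8421da_co.Pattern

set_option autoImplicit false

namespace Pool.Agent.Biclique

open Finset

theorem rl_lt_three (a b : ℕ) : rl a b < 3 := by
  unfold rl; split_ifs <;> norm_num

theorem rl_self (a : ℕ) : rl a a = 1 := by simp [rl]

theorem rl_swap (a b : ℕ) : rl b a = 2 - rl a b := by
  unfold rl
  rcases lt_trichotomy a b with h | h | h
  · have h1 : ¬ b < a := by omega
    have h2 : ¬ b = a := by omega
    simp [h, h1, h2]
  · subst h; simp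
  · have h1 : ¬ a < b := by omega
    have h2 : ¬ a = b := by omega
    simp [h, h1, h2]

theorem rl_eq_one {a b : ℕ} : rl a b = 1 ↔ a = b := by
  unfold rl
  rcases lt_trichotomy a b with h | h | h
  · have h2 : ¬ a = b := by omega
    simp [h, h2]
  · subst h; simp
  · have h1 : ¬ a < b := by omega
    have h2 : ¬ a = b := by omega
    simp [h1, h2]

variable {M : ℕ}

theorem sum1 (f : ℕ → ℕ → ℕ)
    (hf : ∀ o, o < 3 → ∀ o', o' < 3 → o ≠ 1 → o' ≠ 1 → f o o' = 0) (i i' : Fin M) :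
    ∑ α : Fin M, f (rl i α) (rl i' α) = cnt1 f (rl i i') := by
  by_cases h : i = i'
  · subst h
    rw [Fintype.sum_eq_single i]
    · simp [cnt1, rl_self]
    · intro α hα
      apply hf _ (rl_lt_three _ _) _ (rl_lt_three _ _)
      · rw [Ne, rl_eq_one]; exact fun h => hα (Fin.ext h.symm)
      · rw [Ne, rl_eq_one]; exact fun h => hα (Fin.ext h.symm)
  · rw [Fintype.sum_eq_add i i' h]
    · have : rl (i : ℕ) i' ≠ 1 := by
        rw [Ne, rl_eq_one]; exact fun hh => h (Fin.ext hh)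
      simp only [cnt1, rl_self, if_neg this]
      rw [rl_swap (i : ℕ) (i' : ℕ)]
    · rintro α ⟨h1, h2⟩
      apply hf _ (rl_lt_three _ _) _ (rl_lt_three _ _)
      · rw [Ne, rl_eq_one]; exact fun h => h1 (Fin.ext h.symm)
      · rw [Ne, rl_eq_one]; exact fun h => h2 (Fin.ext h.symm)

/-- vertices: a type and a grid position -/
abbrev V (M : ℕ) := Fin 2 × Fin M × Fin M

def oo1 (k : ℕ) (x : V M) (a : Fin M × Fin M) : ℕ :=
  if k = 0 ∨ k = 1 then rl x.2.1 a.1 else 1

def oo2 (k : ℕ) (x : V M) (a : Fin M × Fin M) : ℕ :=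
  if k = 1 then 1 else rl x.2.2 a.2

theorem oo1_lt (k : ℕ) (x : V M) (a : Fin M × Fin M) : oo1 k x a < 3 := by
  unfold oo1; split_ifs
  · exact rl_lt_three _ _
  · norm_num

theorem oo2_lt (k : ℕ) (x : V M) (a : Fin M × Fin M) : oo2 k x a < 3 := by
  unfold oo2; split_ifs
  · norm_num
  · exact rl_lt_three _ _

def sideOf (mask k : ℕ) (a : Fin M × Fin M) : Finset (V M) :=
  univ.filter fun x => bit mask x.1 (oo1 k x a) (oo2 k x a) = true

def anchors (M : ℕ) [NeZero M] (k : ℕ) : Finset (Fin M × Fin M) :=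
  if k = 0 then univ else if k = 1 then univ ×ˢ {0} else {0} ×ˢ univ

/-- the pair is covered by the biclique -/
def Cov (S : Sd) (a : Fin M × Fin M) (x y : V M) : Prop :=
  (x ∈ sideOf S.A S.kind a ∧ y ∈ sideOf S.B S.kind a) ∨
    (x ∈ sideOf S.B S.kind a ∧ y ∈ sideOf S.A S.kind a)

instance (S : Sd) (a : Fin M × Fin M) (x y : V M) : Decidable (Cov S a x y) := by
  unfold Cov; infer_instance

theorem ind_eq (S : Sd) (a : Fin M × Fin M) (x y : V M) :
    (if Cov S a x y then 1 else 0 : ℕ) =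
      ind S x.1 y.1 (oo1 S.kind x a) (oo1 S.kind y a) (oo2 S.kind x a) (oo2 S.kind y a) := by
  unfold ind Cov sideOf
  simp only [mem_filter, mem_univ, true_and, Bool.or_eq_true, Bool.and_eq_true]

structure Valid (S : Sd) : Prop where
  disj : ∀ p, p < 2 → ∀ a, a < 3 → ∀ b, b < 3 → ¬ (bit S.A p a b = true ∧ bit S.B p a b = true)
  pt : S.kind = 0 → ∀ p, p < 2 → ∀ r, r < 2 → ∀ a, a < 3 → ∀ a', a' < 3 → ∀ b, b < 3 →
    ∀ b', b' < 3 → ind S p r a a' b b' = 0 ∨ ((a = 1 ∨ a' = 1) ∧ (b = 1 ∨ b' = 1))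
  col : S.kind = 1 → ∀ p, p < 2 → ∀ r, r < 2 → ∀ a, a < 3 → ∀ a', a' < 3 →
    ind S p r a a' 1 1 = 0 ∨ (a = 1 ∨ a' = 1)
  row : S.kind ≠ 0 → S.kind ≠ 1 → ∀ p, p < 2 → ∀ r, r < 2 → ∀ b, b < 3 → ∀ b', b' < 3 →
    ind S p r 1 1 b b' = 0 ∨ (b = 1 ∨ b' = 1)

theorem valid_of_check {S : Sd} (h : validSd S = true) : Valid S := by
  unfold validSd at h
  simp only [List.all_eq_true, List.mem_range, Bool.and_eq_true, Bool.not_eq_true',
    Bool.and_eq_false_iff] at h
  refine ⟨?_, ?_, ?_, ?_⟩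
  · intro p hp a ha b hb ⟨h1, h2⟩
    have := (h p hp).1 a ha b hb
    rcases this with h3 | h3
    · rw [h1] at h3; cases h3
    · rw [h2] at h3; cases h3
  · intro hk p hp r hr a ha a' ha' b hb b' hb'
    have := (h p hp).2 r hr
    rw [if_pos hk] at this
    simp only [List.all_eq_true, List.mem_range, Bool.or_eq_true, Bool.and_eq_true,
      beq_iff_eq] at this
    exact this a ha a' ha' b hb b' hb'
  · intro hk p hp r hr a ha a' ha'
    have := (h p hp).2 r hr
    rw [if_neg (by omega), if_pos hk] at this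
    simp only [List.all_eq_true, List.mem_range, Bool.or_eq_true,
      beq_iff_eq] at this
    exact this a ha a' ha'
  · intro hk hk1 p hp r hr b hb b' hb'
    have := (h p hp).2 r hr
    rw [if_neg hk, if_neg hk1] at this
    simp only [List.all_eq_true, List.mem_range, Bool.or_eq_true,
      beq_iff_eq] at this
    exact this b hb b' hb'

theorem sum_cov [NeZero M] {S : Sd} (hS : Valid S) (x y : V M) :
    ∑ a ∈ anchors M S.kind, (if Cov S a x y then 1 else 0 : ℕ) =
      cnt S x.1 y.1 (rl x.2.1 y.2.1) (rl x.2.2 y.2.2) := by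
  simp only [ind_eq]
  have hx : (x.1 : ℕ) < 2 := x.1.2
  have hy : (y.1 : ℕ) < 2 := y.1.2
  unfold cnt anchors
  by_cases h0 : S.kind = 0
  · rw [if_pos h0, if_pos h0, h0]
    rw [← Finset.univ_product_univ, Finset.sum_product]
    simp only [oo1, oo2, true_or, if_true, zero_ne_one, if_false]
    have inner : ∀ α : Fin M,
        ∑ β : Fin M, ind S x.1 y.1 (rl x.2.1 α) (rl y.2.1 α) (rl x.2.2 β) (rl y.2.2 β) =
          cnt1 (fun b b' => ind S x.1 y.1 (rl x.2.1 α) (rl y.2.1 α) b b') (rl x.2.2 y.2.2) := by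
      intro α
      apply sum1 (fun b b' => ind S x.1 y.1 (rl x.2.1 α) (rl y.2.1 α) b b')
      intro o ho o' ho' h1 h2
      rcases hS.pt h0 _ hx _ hy _ (rl_lt_three x.2.1 α) _ (rl_lt_three y.2.1 α) o ho o' ho' with
        h | ⟨_, h | h⟩
      · exact h
      · exact absurd h h1
      · exact absurd h h2
    rw [Finset.sum_congr rfl fun α _ => inner α]
    apply sum1 (fun o o' => cnt1 (fun b b' => ind S x.1 y.1 o o' b b') (rl x.2.2 y.2.2))
    intro o ho o' ho' h1 h2
    have key : ∀ b, b < 3 → ∀ b', b' < 3 → ind S x.1 y.1 o o' b b' = 0 := by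
      intro b hb b' hb'
      rcases hS.pt h0 _ hx _ hy o ho o' ho' b hb b' hb' with h | ⟨h | h, _⟩
      · exact h
      · exact absurd h h1
      · exact absurd h h2
    have h3 := rl_lt_three x.2.2 y.2.2
    simp only [cnt1]
    split_ifs
    · exact key 1 (by norm_num) 1 (by norm_num)
    · rw [key 1 (by norm_num) _ (by omega), key _ h3 1 (by norm_num)]
  · rw [if_neg h0, if_neg h0]
    by_cases h1 : S.kind = 1
    · rw [if_pos h1, if_pos h1, h1]
      rw [Finset.sum_product]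
      simp only [oo1, oo2, or_true, if_true, Finset.sum_singleton]
      apply sum1 (fun o o' => ind S x.1 y.1 o o' 1 1)
      intro o ho o' ho' h2 h3
      rcases hS.col h1 _ hx _ hy o ho o' ho' with h | h | h
      · exact h
      · exact absurd h h2
      · exact absurd h h3
    · rw [if_neg h1, if_neg h1]
      rw [Finset.sum_product]
      have h01 : ¬ (S.kind = 0 ∨ S.kind = 1) := by tauto
      simp only [oo1, oo2, if_neg h01, if_neg h1, Finset.sum_singleton]
      apply sum1 (fun b b' => ind S x.1 y.1 1 1 b b')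
      intro o ho o' ho' h2 h3
      rcases hS.row h0 h1 _ hx _ hy o ho o' ho' with h | h | h
      · exact h
      · exact absurd h h2
      · exact absurd h h3

theorem mem_data {t : Sd × Sd} (ht : t ∈ data) : Valid t.1 ∧ Valid t.2 := by
  have h := checkValid_true
  unfold checkValid at h
  rw [List.all_eq_true] at h
  have := h t ht
  rw [Bool.and_eq_true] at this
  exact ⟨valid_of_check this.1, valid_of_check this.2⟩

theorem cover_one {p r c1 c2 p' r' c1' c2' : ℕ} (hp : p < 2) (hr : r < 2) (h1 : c1 < 3)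
    (h2 : c2 < 3) (hp' : p' < 2) (hr' : r' < 2) (h1' : c1' < 3) (h2' : c2' < 3)
    (hne : ¬ (p = r ∧ c1 = 1 ∧ c2 = 1)) (hne' : ¬ (p' = r' ∧ c1' = 1 ∧ c2' = 1)) :
    (data.map fun t => cnt t.1 p r c1 c2 * cnt t.2 p' r' c1' c2').sum = 1 := by
  have h := checkCover_true
  unfold checkCover at h
  simp only [List.all_eq_true, List.mem_range, Bool.or_eq_true, Bool.and_eq_true,
    beq_iff_eq] at h
  rcases h p hp r hr c1 h1 c2 h2 with h | h
  · exact absurd ⟨h.1.1, h.1.2, h.2⟩ hne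
  · rcases h p' hp' r' hr' c1' h1' c2' h2' with h | h
    · exact absurd ⟨h.1.1, h.1.2, h.2⟩ hne'
    · exact h

/-- the terms, indexed -/
def T (t : Fin data.length) : Sd × Sd := data.get t

theorem T_mem (t : Fin data.length) : T t ∈ data := List.get_mem _ _

/-- all blocks -/
def Idx (M : ℕ) [NeZero M] :
    Finset (Fin data.length × (Fin M × Fin M) × (Fin M × Fin M)) :=
  univ.filter fun i => i.2.1 ∈ anchors M (T i.1).1.kind ∧ i.2.2 ∈ anchors M (T i.1).2.kind

theorem sum_Idx [NeZero M] (g : Fin data.length → (Fin M × Fin M) → (Fin M × Fin M) → ℕ) :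
    ∑ i ∈ Idx M, g i.1 i.2.1 i.2.2 =
      ∑ t, ∑ a ∈ anchors M (T t).1.kind, ∑ b ∈ anchors M (T t).2.kind, g t a b := by
  unfold Idx
  rw [Finset.sum_filter, ← Finset.univ_product_univ, Finset.sum_product]
  refine Finset.sum_congr rfl fun t _ => ?_
  rw [← Finset.univ_product_univ, Finset.sum_product]
  rw [← Finset.sum_filter_add_sum_filter_not univ (fun a => a ∈ anchors M (T t).1.kind)]
  have h2 : ∑ a ∈ univ.filter (fun a => ¬ a ∈ anchors M (T t).1.kind),
      ∑ b : Fin M × Fin M, (if a ∈ anchors M (T t).1.kind ∧ b ∈ anchors M (T t).2.kind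
        then g t a b else 0) = 0 := by
    refine Finset.sum_eq_zero fun a ha => Finset.sum_eq_zero fun b _ => ?_
    rw [Finset.mem_filter] at ha
    rw [if_neg (fun h => ha.2 h.1)]
  rw [h2, add_zero, Finset.filter_mem_eq_inter, Finset.univ_inter]
  refine Finset.sum_congr rfl fun a ha => ?_
  simp only [ha, true_and]
  rw [← Finset.sum_filter, Finset.filter_mem_eq_inter, Finset.univ_inter]

theorem card_filter_cov [NeZero M] {x y u v : V M} (hxy : x ≠ y) (huv : u ≠ v) :
    ((Idx M).filter fun i => Cov (T i.1).1 i.2.1 x y ∧ Cov (T i.1).2 i.2.2 u v).card = 1 := by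
  rw [Finset.card_filter]
  rw [sum_Idx (fun t a b => if Cov (T t).1 a x y ∧ Cov (T t).2 b u v then 1 else 0)]
  have key : ∀ t : Fin data.length,
      ∑ a ∈ anchors M (T t).1.kind, ∑ b ∈ anchors M (T t).2.kind,
        (if Cov (T t).1 a x y ∧ Cov (T t).2 b u v then 1 else 0 : ℕ) =
      cnt (T t).1 x.1 y.1 (rl x.2.1 y.2.1) (rl x.2.2 y.2.2) *
        cnt (T t).2 u.1 v.1 (rl u.2.1 v.2.1) (rl u.2.2 v.2.2) := by
    intro t
    rw [← sum_cov (mem_data (T_mem t)).1 x y, ← sum_cov (mem_data (T_mem t)).2 u v,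
      Finset.sum_mul_sum]
    refine Finset.sum_congr rfl fun a _ => Finset.sum_congr rfl fun b _ => ?_
    by_cases h1 : Cov (T t).1 a x y <;> by_cases h2 : Cov (T t).2 b u v <;> simp [h1, h2]
  rw [Finset.sum_congr rfl fun t _ => key t]
  have hne : ∀ {x y : V M}, x ≠ y →
      ¬ ((x.1 : ℕ) = y.1 ∧ rl x.2.1 y.2.1 = 1 ∧ rl x.2.2 y.2.2 = 1) := by
    intro x y h ⟨h1, h2, h3⟩
    rw [rl_eq_one] at h2 h3
    exact h (Prod.ext (Fin.ext h1) (Prod.ext (Fin.ext h2) (Fin.ext h3)))
  have := cover_one x.1.2 y.1.2 (rl_lt_three x.2.1 y.2.1) (rl_lt_three x.2.2 y.2.2)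
    u.1.2 v.1.2 (rl_lt_three u.2.1 v.2.1) (rl_lt_three u.2.2 v.2.2) (hne hxy) (hne huv)
  rw [← this, ← List.sum_ofFn]
  congr 1

theorem card_anchors [NeZero M] (k : ℕ) :
    (anchors M k).card = M ^ (if k = 0 then 2 else 1) := by
  unfold anchors
  by_cases h0 : k = 0
  · rw [if_pos h0, if_pos h0]; simp [sq]
  · rw [if_neg h0, if_neg h0]
    by_cases h1 : k = 1
    · rw [if_pos h1]; simp
    · rw [if_neg h1]; simp

def expo (t : Sd × Sd) : ℕ :=
  (if t.1.kind = 0 then 2 else 1) + (if t.2.kind = 0 then 2 else 1)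

theorem data_expo : data.map expo = List.replicate 3 4 ++ List.replicate 71 3 := by
  decide +kernel

theorem card_Idx [NeZero M] : (Idx M).card = 3 * M ^ 4 + 71 * M ^ 3 := by
  have h := sum_Idx (M := M) (fun _ _ _ => 1)
  rw [Finset.card_eq_sum_ones, h]
  have key : ∀ t : Fin data.length, ∑ _a ∈ anchors M (T t).1.kind,
      ∑ _b ∈ anchors M (T t).2.kind, (1 : ℕ) = M ^ expo (T t) := by
    intro t
    simp only [Finset.sum_const, smul_eq_mul, mul_one, card_anchors, expo, pow_add]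
  rw [Finset.sum_congr rfl fun t _ => key t]
  have h2 : ∑ t : Fin data.length, M ^ expo (T t) =
      ((data.map expo).map fun e => M ^ e).sum := by
    rw [← List.sum_ofFn, List.map_map]
    congr 1
  rw [h2, data_expo, List.map_append, List.map_replicate, List.map_replicate, List.sum_append,
    List.sum_replicate, List.sum_replicate, smul_eq_mul, smul_eq_mul]

theorem disj_sides {S : Sd} (hS : Valid S) (a : Fin M × Fin M) :
    Disjoint (sideOf S.A S.kind a) (sideOf S.B S.kind a) := by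
  rw [Finset.disjoint_left]
  intro x h1 h2
  unfold sideOf at h1 h2
  rw [Finset.mem_filter] at h1 h2
  exact hS.disj x.1 x.1.2 _ (oo1_lt _ _ _) _ (oo2_lt _ _ _) ⟨h1.2, h2.2⟩

/-- **The partition.** For `n = 2 M^2`, `E(K_n) x E(K_n)` is partitioned into `3 M^4 + 71 M^3`
products of complete bipartite edge sets (some of them may be empty). -/
theorem exists_partition (M : ℕ) [NeZero M] :
    ∃ A B C D : Fin (3 * M ^ 4 + 71 * M ^ 3) → Finset (Fin (2 * (M * M))),
      (∀ i, Disjoint (A i) (B i) ∧ Disjoint (C i) (D i)) ∧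
      ∀ x y u v : Fin (2 * (M * M)), x ≠ y → u ≠ v →
        ∃! i, ((x ∈ A i ∧ y ∈ B i) ∨ (x ∈ B i ∧ y ∈ A i)) ∧
          ((u ∈ C i ∧ v ∈ D i) ∨ (u ∈ D i ∧ v ∈ C i)) := by
  have hcard : Fintype.card (V M) = 2 * (M * M) := by simp
  let e : V M ≃ Fin (2 * (M * M)) := Fintype.equivFinOfCardEq hcard
  let φ : Fin (3 * M ^ 4 + 71 * M ^ 3) ≃ Idx M :=
    (Finset.equivFinOfCardEq (card_Idx (M := M))).symm
  let S1 : Fin (3 * M ^ 4 + 71 * M ^ 3) → Sd := fun i => (T (φ i).1.1).1
  let S2 : Fin (3 * M ^ 4 + 71 * M ^ 3) → Sd := fun i => (T (φ i).1.1).2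
  refine ⟨fun i => (sideOf (S1 i).A (S1 i).kind (φ i).1.2.1).map e.toEmbedding,
    fun i => (sideOf (S1 i).B (S1 i).kind (φ i).1.2.1).map e.toEmbedding,
    fun i => (sideOf (S2 i).A (S2 i).kind (φ i).1.2.2).map e.toEmbedding,
    fun i => (sideOf (S2 i).B (S2 i).kind (φ i).1.2.2).map e.toEmbedding, ?_, ?_⟩
  · intro i
    constructor
    · rw [Finset.disjoint_map]; exact disj_sides (mem_data (T_mem _)).1 _
    · rw [Finset.disjoint_map]; exact disj_sides (mem_data (T_mem _)).2 _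
  · intro x y u v hxy huv
    have h1 := card_filter_cov (M := M) (x := e.symm x) (y := e.symm y) (u := e.symm u)
      (v := e.symm v) (fun h => hxy (e.symm.injective h)) (fun h => huv (e.symm.injective h))
    rw [Finset.card_eq_one] at h1
    obtain ⟨j, hj⟩ := h1
    have hj' : ∀ i, (i ∈ Idx M ∧ (Cov (T i.1).1 i.2.1 (e.symm x) (e.symm y) ∧
        Cov (T i.1).2 i.2.2 (e.symm u) (e.symm v))) ↔ i = j := by
      intro i
      rw [← Finset.mem_singleton, ← hj, Finset.mem_filter]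
    have hjI := (hj' j).2 rfl
    have hmem : ∀ (s : Finset (V M)) (z : Fin (2 * (M * M))),
        z ∈ s.map e.toEmbedding ↔ e.symm z ∈ s := by
      intro s z
      rw [Finset.mem_map]
      constructor
      · rintro ⟨w, hw, rfl⟩; simpa using hw
      · intro h; exact ⟨e.symm z, h, by simp⟩
    refine ⟨φ.symm ⟨j, hjI.1⟩, ?_, ?_⟩
    · simp only [hmem, S1, S2, Equiv.apply_symm_apply]
      exact hjI.2
    · intro i hi
      simp only [hmem, S1, S2] at hi
      rw [Equiv.eq_symm_apply]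
      apply Subtype.ext
      exact (hj' _).1 ⟨(φ i).2, hi⟩

end Pool.Agent.Biclique
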